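import Pool.Agent.Lib.H75F.F3
import Pool.Agent.Lib.Helper57.PairCount

/-! # H80K (MP_030a1d_nt): definitions -/

set_option autoImplicit false

namespace Pool.Agent.Lib.H80K

open Finset Pool.Agent.Lib.Sieve

/-- Some `k` with `0 < k < n` makes `k * φ(n - k)` a square. -/
def Good (n : ℕ) : Prop := ∃ k : ℕ, 0 < k ∧ k < n ∧ IsSquare (k * Nat.totient (n - k))

open Classical in
/-- The integers `1 < n ≤ x` which have an admissible `k`. -/
noncomputable def goodSet (x : ℕ) : Finset ℕ := (range (x + 1)).filter (fun n => 1 < n ∧ Good n)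

open Classical in
/-- The `t < T` with `p0 + B t` and `q0 + A t` both prime and larger than `z`. -/
noncomputable def Bset (A B p0 q0 T z : ℕ) : Finset ℕ :=
  (range T).filter (fun t => (p0 + B * t).Prime ∧ z < p0 + B * t ∧ (q0 + A * t).Prime ∧ z < q0 + A * t)

open Classical in
/-- The primes `p > z` with `(a + φ a) p - φ a ≤ x`. -/
noncomputable def Pset (x z a : ℕ) : Finset ℕ :=
  (range (x + 1)).filter (fun p => p.Prime ∧ z < p ∧ (a + Nat.totient a) * p ≤ x + Nat.totient a)

open Classical in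
/-- The values `(a + φ a) p - φ a`. -/
noncomputable def Sset (x z a : ℕ) : Finset ℕ :=
  (Pset x z a).image (fun p => (a + Nat.totient a) * p - Nat.totient a)

/-- `y = ⌊(log x)^(1/10)⌋`. -/
noncomputable def yy (x : ℕ) : ℕ := ⌊(Real.log x) ^ (1 / 10 : ℝ)⌋₊

/-- `z = ⌊x^(1/500)⌋`. -/
noncomputable def zz (x : ℕ) : ℕ := ⌊(x : ℝ) ^ (1 / 500 : ℝ)⌋₊

end Pool.Agent.Lib.H80K
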