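import Pool.Agent.Lib.H80K.K1

/-! # H80K, chunk K3 -/

set_option autoImplicit false

namespace Pool.Agent.Lib.H80K

open Finset Pool.Agent.Lib.Sieve

/-- (K3, M) PROOF: put `A = a + φ a`, `B = b + φ b`, `g = gcd A B`, `A' = A / g`, `B' = B / g`. If the intersection is
empty we are done (the right side is `≥ 0`). A common value is `A p - φ a = B q - φ b` with primes `p, q > z ≥ A, B`.
Take the common value with the least `p =: p0`, and its `q0` (`Finset.exists_min_image` or `Nat.find`). For every common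
value `A (p - p0) = B (q - q0)`, so `B' ∣ p - p0`: `p = p0 + B' t`, `q = q0 + A' t` with `0 ≤ t ≤ p ≤ x`. So the
intersection injects into `Bset A' B' p0 q0 (x + 1) z` (`t` determines `p`). Apply `k1` with `T = x + 1`:
`A' p0 - B' q0 = (φ a - φ b) / g`, of absolute value `≤ max (φ a) (φ b) ≤ Y`; it is not `0`: otherwise `φ a = φ b` and
`A p0 = B q0`, `p0 ∣ B q0`, `p0 > B`, so `p0 = q0`, `A = B`, `a = b`. -/
theorem k3 {a b x z Y : ℕ} (ha : 1 ≤ a) (hb : 1 ≤ b) (hab : a ≠ b) (haY : 2 * a ≤ Y) (hbY : 2 * b ≤ Y)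
    (hY : 6 ≤ Y) (hz : 8 ≤ z) (hYz : Y ≤ z) (hT : z ^ 422 ≤ x + 1) :
    ((Sset x z a ∩ Sset x z b).card : ℝ) ≤ 3 * (x + 1) * ∏ p ∈ sprimes Y z, (1 - 2 / (p : ℝ)) := by
  sorry

end Pool.Agent.Lib.H80K
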