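import Pool.Agent.Lib.H80K.D

/-! # H80K, chunk K4 -/

set_option autoImplicit false

namespace Pool.Agent.Lib.H80K

open Finset Pool.Agent.Lib.Sieve

/-- (K4a, S-M) PROOF: `n = (a + φ a) p - φ a = a p + φ a (p - 1)`, `k = φ a (p - 1)`, `n - k = a p`, `p` is prime and
does not divide `a` (`a ≤ z < p`), so `φ (a p) = φ a (p - 1)` and `k φ (n - k)` is the square of `φ a (p - 1)`. -/
theorem k4a {a x z : ℕ} (ha : 1 ≤ a) (haz : a ≤ z) : Sset x z a ⊆ goodSet x := by
  sorry

/-- (K4b, S-M) PROOF: `p ↦ (a + φ a) p - φ a` is injective on `p ≥ 1`; every prime `z < p ≤ x / (a + φ a)` is in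
`Pset x z a`, and there are at least `π(x / (a + φ a)) - z` of them. -/
theorem k4b {a x z : ℕ} (ha : 1 ≤ a) :
    Nat.primeCounting (x / (a + Nat.totient a)) ≤ (Sset x z a).card + z := by
  sorry

end Pool.Agent.Lib.H80K
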