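import Pool.Agent.Lib.H80K.D

/-! # H80K, chunk K5 -/

set_option autoImplicit false

namespace Pool.Agent.Lib.H80K

open Finset Pool.Agent.Lib.Sieve

private theorem bonf {I : Finset ℕ} (S : ℕ → Finset ℕ) (M : ℝ) (hM : 0 ≤ M)
    (hp : ∀ a ∈ I, ∀ b ∈ I, a ≠ b → ((S a ∩ S b).card : ℝ) ≤ M) :
    ∑ a ∈ I, ((S a).card : ℝ) ≤ ((I.biUnion S).card : ℝ) + (I.card : ℝ) ^ 2 * M := by
  induction I using Finset.induction with
  | empty => simp
  | insert a I ha ih =>
    have h1 := ih fun b hb c hc h => hp b (mem_insert_of_mem hb) c (mem_insert_of_mem hc) h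
    have h2 : ((S a ∩ I.biUnion S).card : ℝ) ≤ I.card * M := by
      have h3 : S a ∩ I.biUnion S = I.biUnion fun b => S a ∩ S b := by
        ext x
        simp only [mem_inter, mem_biUnion]
        constructor
        · rintro ⟨h, b, hb, hx⟩
          exact ⟨b, hb, h, hx⟩
        · rintro ⟨b, hb, h, hx⟩
          exact ⟨h, b, hb, hx⟩
      rw [h3]
      have h4 : ((I.biUnion fun b => S a ∩ S b).card : ℝ) ≤ ∑ b ∈ I, ((S a ∩ S b).card : ℝ) := by
        exact_mod_cast Finset.card_biUnion_le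
      refine h4.trans ?_
      rw [← nsmul_eq_mul]
      refine Finset.sum_le_card_nsmul _ _ _ fun b hb => ?_
      exact hp a (mem_insert_self a I) b (mem_insert_of_mem hb) (fun e => ha (e ▸ hb))
    have h5 : ((S a ∪ I.biUnion S).card : ℝ) + ((S a ∩ I.biUnion S).card : ℝ) =
        ((S a).card : ℝ) + ((I.biUnion S).card : ℝ) := by
      exact_mod_cast Finset.card_union_add_card_inter _ _
    rw [sum_insert ha, biUnion_insert, card_insert_of_notMem ha]
    push_cast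
    have h6 : (0 : ℝ) ≤ (I.card : ℝ) * M := by positivity
    nlinarith

/-- (K5, S) Bonferroni. PROOF: induction on `y` (the union of the first `y` sets `U`; `|U ∪ S| = |U| + |S| - |U ∩ S|` and
`|U ∩ S| ≤ sum of |S_i ∩ S| ≤ y M`). -/
theorem k5 {W : Finset ℕ} (S : ℕ → Finset ℕ) (y : ℕ) (M : ℝ) (hM : 0 ≤ M)
    (hW : ∀ a ∈ Finset.Icc 1 y, S a ⊆ W)
    (hp : ∀ a ∈ Finset.Icc 1 y, ∀ b ∈ Finset.Icc 1 y, a ≠ b → ((S a ∩ S b).card : ℝ) ≤ M) :
    ∑ a ∈ Finset.Icc 1 y, ((S a).card : ℝ) ≤ (W.card : ℝ) + (y : ℝ) ^ 2 * M := by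
  have h1 := bonf S M hM hp
  have h2 : (((Finset.Icc 1 y).biUnion S).card : ℝ) ≤ (W.card : ℝ) := by
    exact_mod_cast Finset.card_le_card (Finset.biUnion_subset.2 hW)
  rw [Nat.card_Icc, Nat.add_sub_cancel] at h1
  linarith

end Pool.Agent.Lib.H80K
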