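import Pool.Agent.Lib.H80K.D

/-! # H80K, chunk K6 -/

set_option autoImplicit false

namespace Pool.Agent.Lib.H80K

open Finset Pool.Agent.Lib.Sieve

private lemma ev_log : ∀ᶠ x : ℕ in Filter.atTop,
    160 * (Real.log x) ^ 2 * (x : ℝ) ^ (1 / 500 : ℝ) ≤ x ∧ Real.exp 1 ≤ Real.log x ∧ 3 ≤ Real.log x := by
  have h1 := (isLittleO_log_rpow_atTop (r := (1 / 5 : ℝ)) (by norm_num)).bound (c := 1 / 13) (by norm_num)
  have h2 : ∀ᶠ x : ℝ in Filter.atTop, (3 : ℝ) ≤ Real.log x :=
    Real.tendsto_log_atTop.eventually_ge_atTop 3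
  have h3 : ∀ᶠ x : ℝ in Filter.atTop, (1 : ℝ) ≤ x := Filter.eventually_ge_atTop 1
  have h4 : ∀ᶠ x : ℝ in Filter.atTop,
      160 * (Real.log x) ^ 2 * x ^ (1 / 500 : ℝ) ≤ x ∧ Real.exp 1 ≤ Real.log x ∧ 3 ≤ Real.log x := by
    filter_upwards [h1, h2, h3] with x h1 h2 h3
    refine ⟨?_, ?_, h2⟩
    · rw [Real.norm_of_nonneg (by linarith), Real.norm_of_nonneg (Real.rpow_nonneg (by linarith) _)] at h1
      have h0 : (0 : ℝ) < x := by linarith
      have h5 : 160 * (Real.log x) ^ 2 ≤ x ^ (2 / 5 : ℝ) := by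
        have e : x ^ (2 / 5 : ℝ) = (x ^ (1 / 5 : ℝ)) ^ 2 := by
          rw [← Real.rpow_natCast, ← Real.rpow_mul h0.le]
          norm_num
        rw [e]
        have h6 : (0 : ℝ) ≤ x ^ (1 / 5 : ℝ) := Real.rpow_nonneg h0.le _
        have h7 : 13 * Real.log x ≤ x ^ (1 / 5 : ℝ) := by linarith
        nlinarith
      calc 160 * (Real.log x) ^ 2 * x ^ (1 / 500 : ℝ) ≤ x ^ (2 / 5 : ℝ) * x ^ (1 / 500 : ℝ) :=
            mul_le_mul_of_nonneg_right h5 (Real.rpow_nonneg h0.le _)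
        _ = x ^ (2 / 5 + 1 / 500 : ℝ) := (Real.rpow_add h0 _ _).symm
        _ ≤ x ^ (1 : ℝ) := Real.rpow_le_rpow_of_exponent_le h3 (by norm_num)
        _ = x := Real.rpow_one x
    · have := Real.exp_one_lt_d9
      linarith
  exact tendsto_natCast_atTop_atTop.eventually h4

/-- (K6a, M) PROOF: `Nat.primeCounting_ge`-type bound `primeCounting_ge` of `Lib/Helper57/PairCount.lean` (namespace
there): `π(N) ≥ N / (2 log N)` for `N ≥ 100`. With `N = x / (a + φ a) ≥ x / (2 a) - 1 ≥ x / (4 a)` and `log N ≤ log x`: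
`π(N) ≥ x / (8 a log x)`. The sum of `1 / a` over `a ≤ y` is at least `log (y + 1) ≥ (1/10) log log x`
(`y + 1 ≥ (log x)^(1/10)`; Mathlib `log_add_one_le_harmonic` or similar). The term `y z ≤ x^(1/2)` is small. -/
theorem k6a : ∃ c : ℝ, 0 < c ∧ ∀ᶠ x : ℕ in Filter.atTop,
    c * (x * Real.log (Real.log x) / Real.log x) ≤
      ∑ a ∈ Finset.Icc 1 (yy x), ((Nat.primeCounting (x / (a + Nat.totient a)) : ℝ) - zz x) := by
  refine ⟨1 / 160, by norm_num, ?_⟩
  filter_upwards [ev_log, Filter.eventually_ge_atTop 1] with x hx hx1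
  obtain ⟨h1, h2, h3⟩ := hx
  have hxR : (1 : ℝ) ≤ x := by exact_mod_cast hx1
  have hx0 : (0 : ℝ) < x := by linarith
  set L := Real.log x with hL
  have hL0 : 0 < L := by linarith
  have hLL : 1 ≤ Real.log L := by
    rw [Real.le_log_iff_exp_le hL0]
    exact h2
  have hrp : (1 : ℝ) ≤ (x : ℝ) ^ (1 / 500 : ℝ) := Real.one_le_rpow hxR (by norm_num)
  have hY : (yy x : ℝ) ≤ L := by
    have e1 : (yy x : ℝ) ≤ L ^ (1 / 10 : ℝ) := Nat.floor_le (Real.rpow_nonneg hL0.le _)
    have e2 : L ^ (1 / 10 : ℝ) ≤ L ^ (1 : ℝ) := Real.rpow_le_rpow_of_exponent_le (by linarith) (by norm_num)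
    rw [Real.rpow_one] at e2
    linarith
  have hZ : (zz x : ℝ) ≤ (x : ℝ) ^ (1 / 500 : ℝ) := Nat.floor_le (Real.rpow_nonneg hx0.le _)
  have hbig : 400 * L ≤ x := by nlinarith
  -- each term
  have hterm : ∀ a ∈ Finset.Icc 1 (yy x),
      x / (8 * L) * (a : ℝ)⁻¹ ≤ (Nat.primeCounting (x / (a + Nat.totient a)) : ℝ) := by
    intro a ha
    rw [Finset.mem_Icc] at ha
    have ha1 : (1 : ℝ) ≤ a := by exact_mod_cast ha.1
    have haY : (a : ℝ) ≤ L := le_trans (by exact_mod_cast ha.2) hY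
    set m := a + Nat.totient a with hm
    have hm1 : 0 < m := by omega
    have hm2 : (m : ℝ) ≤ 2 * a := by
      have := Nat.totient_le a
      have h : m ≤ 2 * a := by omega
      exact_mod_cast h
    have hm0 : (0 : ℝ) < m := by exact_mod_cast hm1
    set N := x / m with hN
    have hN1 : (x : ℝ) / (2 * a) < (N : ℝ) + 1 := by
      have h : x < (N + 1) * m := by
        have e1 := Nat.div_add_mod x m
        have e2 := Nat.mod_lt x hm1
        have e3 : (N + 1) * m = m * (x / m) + m := by rw [hN]; ring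
        omega
      have h' : (x : ℝ) < ((N : ℝ) + 1) * m := by exact_mod_cast h
      rw [div_lt_iff₀ (by linarith)]
      have : ((N : ℝ) + 1) * m ≤ ((N : ℝ) + 1) * (2 * a) := mul_le_mul_of_nonneg_left hm2 (by positivity)
      linarith
    have hxa : (100 : ℝ) ≤ x / (4 * a) := by
      rw [le_div_iff₀ (by linarith)]
      nlinarith
    have hN2 : (x : ℝ) / (4 * a) ≤ N := by
      have e : (x : ℝ) / (2 * a) = 2 * (x / (4 * a)) := by
        field_simp
        ring
      rw [e] at hN1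
      linarith
    have hN100 : 100 ≤ N := by
      have : (100 : ℝ) ≤ N := hxa.trans hN2
      exact_mod_cast this
    have hp := Pool.Agent.Lib.Helper57.primeCounting_ge N hN100
    have hNx : (N : ℝ) ≤ x := by exact_mod_cast Nat.div_le_self x m
    have hN0 : (0 : ℝ) < N := by
      have : (100 : ℝ) ≤ N := hxa.trans hN2
      linarith
    have hlogN : Real.log N ≤ L := Real.log_le_log hN0 hNx
    have hlogN0 : 0 < Real.log N := Real.log_pos (by
      have : (100 : ℝ) ≤ N := hxa.trans hN2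
      linarith)
    calc x / (8 * L) * (a : ℝ)⁻¹ = (x / (4 * a)) / (2 * L) := by
          field_simp
          ring
      _ ≤ N / (2 * L) := div_le_div_of_nonneg_right hN2 (by positivity)
      _ ≤ N / (2 * Real.log N) := div_le_div_of_nonneg_left hN0.le (by positivity) (by linarith)
      _ ≤ _ := hp
  -- the harmonic sum
  have hharm : (1 / 10) * Real.log L ≤ ∑ a ∈ Finset.Icc 1 (yy x), (a : ℝ)⁻¹ := by
    have e1 := log_add_one_le_harmonic (yy x)
    rw [harmonic_eq_sum_Icc] at e1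
    push_cast at e1
    have e2 : L ^ (1 / 10 : ℝ) ≤ (yy x : ℝ) + 1 := (Nat.lt_floor_add_one _).le
    have e3 : Real.log (L ^ (1 / 10 : ℝ)) ≤ Real.log ((yy x : ℝ) + 1) :=
      Real.log_le_log (Real.rpow_pos_of_pos hL0 _) e2
    rw [Real.log_rpow hL0] at e3
    linarith
  rw [Finset.sum_sub_distrib]
  have hs1 : x / (8 * L) * ((1 / 10) * Real.log L) ≤
      ∑ a ∈ Finset.Icc 1 (yy x), (Nat.primeCounting (x / (a + Nat.totient a)) : ℝ) := by
    calc x / (8 * L) * ((1 / 10) * Real.log L) ≤ x / (8 * L) * ∑ a ∈ Finset.Icc 1 (yy x), (a : ℝ)⁻¹ :=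
          mul_le_mul_of_nonneg_left hharm (by positivity)
      _ = ∑ a ∈ Finset.Icc 1 (yy x), x / (8 * L) * (a : ℝ)⁻¹ := by rw [Finset.mul_sum]
      _ ≤ _ := Finset.sum_le_sum hterm
  have hs2 : ∑ a ∈ Finset.Icc 1 (yy x), (zz x : ℝ) ≤ x * Real.log L / (160 * L) := by
    rw [Finset.sum_const, Nat.card_Icc, Nat.add_sub_cancel, nsmul_eq_mul]
    calc (yy x : ℝ) * zz x ≤ L * (x : ℝ) ^ (1 / 500 : ℝ) :=
          mul_le_mul hY hZ (Nat.cast_nonneg _) hL0.le
      _ ≤ x / (160 * L) := by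
          rw [le_div_iff₀ (by positivity)]
          nlinarith
      _ ≤ x * Real.log L / (160 * L) := by
          apply div_le_div_of_nonneg_right _ (by positivity)
          nlinarith
  have e : x / (8 * L) * ((1 / 10) * Real.log L) = 2 * (x * Real.log L / (160 * L)) := by
    field_simp
    ring
  have e' : (1 : ℝ) / 160 * (x * Real.log L / L) = x * Real.log L / (160 * L) := by
    field_simp
  rw [e']
  rw [e] at hs1
  linarith

end Pool.Agent.Lib.H80K
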