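import Pool.Agent.Lib.H80K.D

/-! # H80K, chunk K6B -/

set_option autoImplicit false

namespace Pool.Agent.Lib.H80K

open Finset Pool.Agent.Lib.Sieve

private theorem log_atTop : Filter.Tendsto (fun x : ℕ => Real.log (x : ℝ)) Filter.atTop Filter.atTop :=
  Real.tendsto_log_atTop.comp tendsto_natCast_atTop_atTop

private theorem pow_atTop {e : ℝ} (he : 0 < e) :
    Filter.Tendsto (fun x : ℕ => (x : ℝ) ^ e) Filter.atTop Filter.atTop :=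
  (tendsto_rpow_atTop he).comp tendsto_natCast_atTop_atTop

/-- (K6c, S) PROOF: `x^(1/500) ≥ 2 (log x)^(1/10) + 7` for large `x`. -/
theorem k6c : ∀ᶠ x : ℕ in Filter.atTop,
    8 ≤ zz x ∧ 2 * yy x + 6 ≤ zz x ∧ zz x ^ 422 ≤ x + 1 := by
  have h1 : ∀ᶠ x : ℕ in Filter.atTop, (8 : ℝ) ≤ (x : ℝ) ^ (1 / 500 : ℝ) :=
    (pow_atTop (by norm_num)).eventually_ge_atTop 8
  have h2 : ∀ᶠ x : ℕ in Filter.atTop, (16 : ℝ) ≤ (x : ℝ) ^ (1 / 500 : ℝ) :=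
    (pow_atTop (by norm_num)).eventually_ge_atTop 16
  have h3 : ∀ᶠ x : ℕ in Filter.atTop, ‖Real.log (x : ℝ)‖ ≤ (1 / 1000) * ‖(x : ℝ) ^ (1 / 500 : ℝ)‖ := by
    have h := (isLittleO_log_rpow_atTop (r := 1 / 500) (by norm_num)).def (show (0 : ℝ) < 1 / 1000 by norm_num)
    exact tendsto_natCast_atTop_atTop.eventually h
  have h4 : ∀ᶠ x : ℕ in Filter.atTop, (1 : ℝ) ≤ Real.log (x : ℝ) := log_atTop.eventually_ge_atTop 1
  filter_upwards [h1, h2, h3, h4, Filter.eventually_ge_atTop 1] with x hx1 hx2 hx3 hx4 hx5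
  have hx0 : (1 : ℝ) ≤ x := by exact_mod_cast hx5
  have hz8 : 8 ≤ zz x := Nat.le_floor (by exact_mod_cast hx1)
  have hy : (yy x : ℝ) ≤ Real.log x := by
    have h5 : (yy x : ℝ) ≤ (Real.log x) ^ (1 / 10 : ℝ) := Nat.floor_le (by positivity)
    have h6 : (Real.log x) ^ (1 / 10 : ℝ) ≤ (Real.log x) ^ (1 : ℝ) :=
      Real.rpow_le_rpow_of_exponent_le hx4 (by norm_num)
    rw [Real.rpow_one] at h6
    exact h5.trans h6
  rw [Real.norm_of_nonneg (by linarith), Real.norm_of_nonneg (by positivity)] at hx3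
  refine ⟨hz8, Nat.le_floor ?_, ?_⟩
  · push_cast
    linarith
  · have h7 : (zz x : ℝ) ≤ (x : ℝ) ^ (1 / 500 : ℝ) := Nat.floor_le (by positivity)
    have h8 : ((zz x ^ 422 : ℕ) : ℝ) ≤ ((x + 1 : ℕ) : ℝ) := by
      push_cast
      calc (zz x : ℝ) ^ 422 ≤ ((x : ℝ) ^ (1 / 500 : ℝ)) ^ 422 := pow_le_pow_left₀ (by positivity) h7 _
        _ = (x : ℝ) ^ (422 / 500 : ℝ) := by
          rw [← Real.rpow_natCast, ← Real.rpow_mul (by positivity)]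
          norm_num
        _ ≤ (x : ℝ) ^ (1 : ℝ) := Real.rpow_le_rpow_of_exponent_le hx0 (by norm_num)
        _ = x := Real.rpow_one _
        _ ≤ (x : ℝ) + 1 := by linarith
    exact_mod_cast h8

/-- (K6b, M) PROOF: `log z ≥ (1/1000) log x` for large `x`, `(2 y + 6) ≤ 8 y`, so the left side is at most
`C' y ^ 4 (x + 1) / (log x) ^ 2 ≤ C'' x / (log x) ^ (8/5)`, and `(log x)^(-3/5) → 0`, `log log x → ∞`. -/
theorem k6b (C c : ℝ) (hC : 0 < C) (hc : 0 < c) : ∀ᶠ x : ℕ in Filter.atTop,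
    (yy x : ℝ) ^ 2 * (3 * (x + 1) * (C * ((2 * yy x + 6 : ℕ) : ℝ) ^ 2 / Real.log (zz x) ^ 2)) ≤
      c * (x * Real.log (Real.log x) / Real.log x) := by
  have h1 : ∀ᶠ x : ℕ in Filter.atTop, (2 : ℝ) ^ (1000 : ℝ) ≤ (x : ℝ) :=
    tendsto_natCast_atTop_atTop.eventually_ge_atTop _
  have h4 : ∀ᶠ x : ℕ in Filter.atTop, Real.exp 1 ≤ Real.log (x : ℝ) := log_atTop.eventually_ge_atTop _
  have h5 : ∀ᶠ x : ℕ in Filter.atTop,
      (3 * 2 * C * 64 * 1000 ^ 2) / c ≤ (Real.log (x : ℝ)) ^ (3 / 5 : ℝ) :=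
    ((tendsto_rpow_atTop (by norm_num)).comp log_atTop).eventually_ge_atTop _
  filter_upwards [h1, h4, h5, Filter.eventually_ge_atTop 1] with x hx1 hx4 hx5 hx6
  have hx0 : (1 : ℝ) ≤ x := by exact_mod_cast hx6
  have hxpos : (0 : ℝ) < x := zero_lt_one.trans_le hx0
  set L : ℝ := Real.log x with hL
  have he : (2 : ℝ) < Real.exp 1 := by
    have := Real.exp_one_gt_d9
    linarith
  have hL1 : (1 : ℝ) ≤ L := by linarith
  have hLp : 0 < L := by linarith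
  have hLL : (1 : ℝ) ≤ Real.log L := by
    rw [Real.le_log_iff_exp_le hLp]
    exact hx4
  set P : ℝ := L ^ (1 / 10 : ℝ) with hP
  have hP1 : 1 ≤ P := Real.one_le_rpow hL1 (by norm_num)
  have hy : (yy x : ℝ) ≤ P := Nat.floor_le (by positivity)
  have hY : ((2 * yy x + 6 : ℕ) : ℝ) ≤ 8 * P := by
    push_cast
    linarith
  -- log of z
  have hq2 : (2 : ℝ) ≤ (x : ℝ) ^ (1 / 1000 : ℝ) := by
    calc (2 : ℝ) = ((2 : ℝ) ^ (1000 : ℝ)) ^ (1 / 1000 : ℝ) := by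
          rw [← Real.rpow_mul (by norm_num)]
          norm_num
      _ ≤ (x : ℝ) ^ (1 / 1000 : ℝ) := Real.rpow_le_rpow (by positivity) hx1 (by norm_num)
  clear hx1 h1
  have hz : (x : ℝ) ^ (1 / 1000 : ℝ) ≤ zz x := by
    have h6 : (x : ℝ) ^ (1 / 500 : ℝ) < (zz x : ℝ) + 1 := Nat.lt_floor_add_one _
    have h7 : (x : ℝ) ^ (1 / 500 : ℝ) = (x : ℝ) ^ (1 / 1000 : ℝ) * (x : ℝ) ^ (1 / 1000 : ℝ) := by
      rw [← Real.rpow_add (by linarith)]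
      norm_num
    nlinarith
  have hlz : L / 1000 ≤ Real.log (zz x) := by
    have h8 := Real.log_le_log (by positivity) hz
    rw [Real.log_rpow (by linarith)] at h8
    linarith
  have hlz2 : (L / 1000) ^ 2 ≤ Real.log (zz x) ^ 2 := pow_le_pow_left₀ (by positivity) hlz 2
  have h9 : C * ((2 * yy x + 6 : ℕ) : ℝ) ^ 2 / Real.log (zz x) ^ 2 ≤ C * (8 * P) ^ 2 / (L / 1000) ^ 2 := by
    gcongr
  have h10 : (yy x : ℝ) ^ 2 * (3 * (x + 1) * (C * ((2 * yy x + 6 : ℕ) : ℝ) ^ 2 / Real.log (zz x) ^ 2)) ≤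
      P ^ 2 * (3 * (2 * x) * (C * (8 * P) ^ 2 / (L / 1000) ^ 2)) := by
    have h11 : (x : ℝ) + 1 ≤ 2 * x := by linarith
    gcongr
  refine h10.trans ?_
  have hP4 : P ^ 4 = L ^ (2 / 5 : ℝ) := by
    rw [hP, ← Real.rpow_natCast, ← Real.rpow_mul hLp.le]
    norm_num
  have hPL : L ^ (2 / 5 : ℝ) * L ^ (3 / 5 : ℝ) = L := by
    rw [← Real.rpow_add hLp]
    norm_num
  have h12 : P ^ 2 * (3 * (2 * x) * (C * (8 * P) ^ 2 / (L / 1000) ^ 2)) =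
      (3 * 2 * C * 64 * 1000 ^ 2) * L ^ (2 / 5 : ℝ) * x / L ^ 2 := by
    rw [← hP4]
    field_simp
    try ring
  rw [h12]
  rw [div_le_iff₀ hc] at hx5
  have h13 : (3 * 2 * C * 64 * 1000 ^ 2) * L ^ (2 / 5 : ℝ) ≤ c * L := by
    calc (3 * 2 * C * 64 * 1000 ^ 2) * L ^ (2 / 5 : ℝ) ≤ (L ^ (3 / 5 : ℝ) * c) * L ^ (2 / 5 : ℝ) :=
          mul_le_mul_of_nonneg_right hx5 (by positivity)
      _ = c * (L ^ (2 / 5 : ℝ) * L ^ (3 / 5 : ℝ)) := by ring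
      _ = c * L := by rw [hPL]
  calc (3 * 2 * C * 64 * 1000 ^ 2) * L ^ (2 / 5 : ℝ) * x / L ^ 2 ≤ c * L * x / L ^ 2 := by gcongr
    _ = c * (x * 1 / L) := by field_simp
    _ ≤ c * (x * Real.log L / L) := by gcongr

end Pool.Agent.Lib.H80K
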