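import Pool.Agent.Lib.H80K.K2
import Pool.Agent.Lib.H80K.K3
import Pool.Agent.Lib.H80K.K4
import Pool.Agent.Lib.H80K.K5
import Pool.Agent.Lib.H80K.K6
import Pool.Agent.Lib.H80K.K6B

/-! # H80K, assembly -/

set_option autoImplicit false

namespace Pool.Agent.Lib.H80K

open Finset Pool.Agent.Lib.Sieve

theorem main : ∃ c : ℝ, 0 < c ∧ ∀ᶠ x : ℕ in Filter.atTop,
    c * (x * Real.log (Real.log x) / Real.log x) ≤ ((goodSet x).card : ℝ) := by
  obtain ⟨C, hC, h2⟩ := k2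
  obtain ⟨c, hc, h6⟩ := k6a
  refine ⟨c / 2, by positivity, ?_⟩
  filter_upwards [h6, k6b C (c / 2) hC (by positivity), k6c] with x hx6 hxb hxc
  obtain ⟨hz8, hYz, hz422⟩ := hxc
  have hM : ∀ a ∈ Finset.Icc 1 (yy x), ∀ b ∈ Finset.Icc 1 (yy x), a ≠ b →
      ((Sset x (zz x) a ∩ Sset x (zz x) b).card : ℝ) ≤
        3 * (x + 1) * (C * ((2 * yy x + 6 : ℕ) : ℝ) ^ 2 / Real.log (zz x) ^ 2) := by
    intro a ha b hb hab
    rw [Finset.mem_Icc] at ha hb
    refine (k3 (Y := 2 * yy x + 6) ha.1 hb.1 hab (by omega) (by omega) (by omega) hz8 hYz hz422).trans ?_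
    exact mul_le_mul_of_nonneg_left (h2 (zz x) (2 * yy x + 6) hz8 (by omega)) (by positivity)
  have h5 := k5 (W := goodSet x) (Sset x (zz x)) (yy x) _ (by positivity) (fun a ha => by
    rw [Finset.mem_Icc] at ha
    exact k4a ha.1 (by omega)) hM
  have h7 : ∑ a ∈ Finset.Icc 1 (yy x), ((Nat.primeCounting (x / (a + Nat.totient a)) : ℝ) - zz x) ≤
      ∑ a ∈ Finset.Icc 1 (yy x), ((Sset x (zz x) a).card : ℝ) := by
    refine Finset.sum_le_sum fun a ha => ?_
    rw [Finset.mem_Icc] at ha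
    have := k4b (x := x) (z := zz x) ha.1
    have h8 : (Nat.primeCounting (x / (a + Nat.totient a)) : ℝ) ≤ (Sset x (zz x) a).card + zz x := by
      exact_mod_cast this
    linarith
  linarith

end Pool.Agent.Lib.H80K
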