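import Pool.Agent.Lib.H80K.D

/-! # H80K, chunk K1 -/

set_option autoImplicit false

namespace Pool.Agent.Lib.H80K

open Finset Pool.Agent.Lib.Sieve

/-- The removed classes. -/
private noncomputable def Om (A B p0 q0 Y p : ℕ) : Finset (ZMod p) :=
  if Y < p then {-(p0 : ZMod p) * (B : ZMod p)⁻¹, -(q0 : ZMod p) * (A : ZMod p)⁻¹} else ∅

private theorem Om_card_le (A B p0 q0 Y p : ℕ) : (Om A B p0 q0 Y p).card ≤ 2 := by
  unfold Om
  split_ifs
  · exact Finset.card_le_two
  · simp

private theorem cast_ne {A Y p : ℕ} (hA : 0 < A) (hAY : A ≤ Y) (hYp : Y < p) : (A : ZMod p) ≠ 0 := by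
  intro h1
  rw [ZMod.natCast_eq_zero_iff] at h1
  have := Nat.le_of_dvd hA h1
  omega

private theorem Om_card {A B p0 q0 Y p : ℕ} (hp : p.Prime) (hYp : Y < p)
    (hA : 0 < A) (hAY : A ≤ Y) (hB : 0 < B) (hBY : B ≤ Y)
    (hD : (A : ℤ) * p0 ≠ B * q0) (hD2 : |(A : ℤ) * p0 - B * q0| ≤ Y) : (Om A B p0 q0 Y p).card = 2 := by
  have : Fact p.Prime := ⟨hp⟩
  have hA' : (A : ZMod p) ≠ 0 := cast_ne hA hAY hYp
  have hB' : (B : ZMod p) ≠ 0 := cast_ne hB hBY hYp
  unfold Om
  rw [if_pos hYp, Finset.card_pair]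
  intro h
  have h2 : (A : ZMod p) * p0 = B * q0 := by
    have h3 : -((A : ZMod p) * p0) = -((B : ZMod p) * q0) := by
      calc -((A : ZMod p) * p0) = (-(p0 : ZMod p) * (B : ZMod p)⁻¹) * (B * A) := by
            rw [mul_assoc, ← mul_assoc (B : ZMod p)⁻¹, inv_mul_cancel₀ hB']
            ring
        _ = (-(q0 : ZMod p) * (A : ZMod p)⁻¹) * (B * A) := by rw [h]
        _ = -((B : ZMod p) * q0) := by
            rw [mul_comm (B : ZMod p) A, mul_assoc, ← mul_assoc (A : ZMod p)⁻¹, inv_mul_cancel₀ hA']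
            ring
    exact neg_injective h3
  have h5 : (((A : ℤ) * p0 - B * q0 : ℤ) : ZMod p) = 0 := by
    push_cast
    rw [h2, sub_self]
  have h7 : (p : ℤ) ∣ (A : ℤ) * p0 - B * q0 := (ZMod.intCast_zmod_eq_zero_iff_dvd _ p).1 h5
  have h6 : |(A : ℤ) * p0 - B * q0| < p := lt_of_le_of_lt hD2 (by exact_mod_cast hYp)
  exact hD (sub_eq_zero.1 (Int.eq_zero_of_abs_lt_dvd h7 h6))

/-- (K1, M) PROOF: copy of `s1` in `Lib/H75F/F3.lean`. `fundamental_sum` with `k = 2` and
`Om p = if Y < p then {-p0 / B, -q0 / A} else ∅` (in `ZMod p`); for a prime `p > Y` (so `p > A, B`) the two classes are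
different, as `A p0 ≠ B q0 mod p` (`|A p0 - B q0| ≤ Y < p` and it is not `0`). The product over `sprimes 6 z` of
`1 - dens` is the product over `sprimes Y z` of `1 - 2 / p` (`dens = 0` for `p ≤ Y`, `dens = 2 / p` for `p > Y`). -/
theorem k1 {A B p0 q0 T z Y : ℕ} (hz : 8 ≤ z) (hT : z ^ 422 ≤ T) (hY : 6 ≤ Y)
    (hA : 0 < A) (hAY : A ≤ Y) (hB : 0 < B) (hBY : B ≤ Y)
    (hD : (A : ℤ) * p0 ≠ B * q0) (hD2 : |(A : ℤ) * p0 - B * q0| ≤ Y) :
    ((Bset A B p0 q0 T z).card : ℝ) ≤ 3 * T * ∏ p ∈ sprimes Y z, (1 - 2 / (p : ℝ)) := by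
  have h := (fundamental_sum (k := 2) (z := z) (Ω := Om A B p0 q0 Y) (by omega)
    (fun p _ _ _ => Om_card_le A B p0 q0 Y p) 0 T (by simpa using hT)).2
  have h1 : ∏ p ∈ sprimes (2 * 2 + 2) z, (1 - Sieve.dens (Om A B p0 q0 Y) p) =
      ∏ p ∈ sprimes Y z, (1 - 2 / (p : ℝ)) := by
    have hsub : sprimes Y z ⊆ sprimes (2 * 2 + 2) z := by
      intro p hp
      obtain ⟨h2, h3, h4⟩ := mem_sprimes.1 hp
      exact mem_sprimes.2 ⟨h2, by omega, h4⟩
    rw [← Finset.prod_subset hsub (f := fun p => 1 - Sieve.dens (Om A B p0 q0 Y) p) ?_]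
    · refine Finset.prod_congr rfl fun p hp => ?_
      obtain ⟨h2, h3, h4⟩ := mem_sprimes.1 hp
      unfold Sieve.dens
      rw [Om_card h2 h3 hA hAY hB hBY hD hD2]
      norm_num
    · intro p hp hp'
      obtain ⟨h2, h3, h4⟩ := mem_sprimes.1 hp
      have h5 : ¬ Y < p := fun h5 => hp' (mem_sprimes.2 ⟨h2, h5, h4⟩)
      unfold Sieve.dens Om
      rw [if_neg h5]
      simp
  rw [h1] at h
  have h2 : ((Bset A B p0 q0 T z).card : ℝ) ≤
      ∑ u ∈ Finset.Ico (0 : ℤ) (0 + (T : ℤ)), ∏ p ∈ sprimes (2 * 2 + 2) z, (1 - chi (Om A B p0 q0 Y) p u) := by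
    have hinj : Set.InjOn (fun n : ℕ => (n : ℤ)) (Bset A B p0 q0 T z : Set ℕ) := fun a _ b _ hab => by
      have hab' : (a : ℤ) = (b : ℤ) := hab
      exact_mod_cast hab'
    have h3 : ((Bset A B p0 q0 T z).card : ℝ) =
        ∑ u ∈ (Bset A B p0 q0 T z).image (fun n : ℕ => (n : ℤ)), (1 : ℝ) := by
      rw [Finset.sum_const, Finset.card_image_of_injOn hinj]
      simp
    rw [h3]
    calc ∑ u ∈ (Bset A B p0 q0 T z).image (fun n : ℕ => (n : ℤ)), (1 : ℝ)
        ≤ ∑ u ∈ (Bset A B p0 q0 T z).image (fun n : ℕ => (n : ℤ)),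
            ∏ p ∈ sprimes (2 * 2 + 2) z, (1 - chi (Om A B p0 q0 Y) p u) := by
          refine Finset.sum_le_sum fun u hu => ?_
          obtain ⟨t, ht, rfl⟩ := Finset.mem_image.1 hu
          obtain ⟨-, hp1, hz1, hp2, hz2⟩ := Finset.mem_filter.1 ht
          refine le_of_eq ?_
          symm
          refine Finset.prod_eq_one fun p hp => ?_
          obtain ⟨hpr, h6, hpz⟩ := mem_sprimes.1 hp
          have : Fact p.Prime := ⟨hpr⟩
          have hnot : ((t : ℤ) : ZMod p) ∉ Om A B p0 q0 Y p := by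
            unfold Om
            split_ifs with hYp
            · have hA' : (A : ZMod p) ≠ 0 := cast_ne hA hAY hYp
              have hB' : (B : ZMod p) ≠ 0 := cast_ne hB hBY hYp
              rw [Finset.mem_insert, Finset.mem_singleton, Int.cast_natCast]
              rintro (h4 | h4)
              · have h8 : ((p0 + B * t : ℕ) : ZMod p) = 0 := by
                  push_cast
                  rw [h4, mul_comm (B : ZMod p), mul_assoc, inv_mul_cancel₀ hB', mul_one, add_neg_cancel]
                rw [ZMod.natCast_eq_zero_iff] at h8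
                have := (Nat.prime_dvd_prime_iff_eq hpr hp1).1 h8
                omega
              · have h8 : ((q0 + A * t : ℕ) : ZMod p) = 0 := by
                  push_cast
                  rw [h4, mul_comm (A : ZMod p), mul_assoc, inv_mul_cancel₀ hA', mul_one, add_neg_cancel]
                rw [ZMod.natCast_eq_zero_iff] at h8
                have := (Nat.prime_dvd_prime_iff_eq hpr hp2).1 h8
                omega
            · simp
          unfold chi
          rw [if_neg hnot, sub_zero]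
      _ ≤ _ := by
          refine Finset.sum_le_sum_of_subset_of_nonneg ?_ ?_
          · intro u hu
            obtain ⟨r, hr, rfl⟩ := Finset.mem_image.1 hu
            have h4 := (Finset.mem_filter.1 hr).1
            rw [Finset.mem_range] at h4
            rw [Finset.mem_Ico]
            constructor
            · positivity
            · rw [zero_add]
              exact_mod_cast h4
          · intro u _ _
            refine Finset.prod_nonneg fun p _ => ?_
            unfold chi
            split_ifs <;> norm_num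
  exact h2.trans h

end Pool.Agent.Lib.H80K
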