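import Pool.Agent.Lib.H80K.D

/-! # H80K, chunk K2 -/

set_option autoImplicit false

namespace Pool.Agent.Lib.H80K

open Finset Pool.Agent.Lib.Sieve

/-- (K2, S-M) PROOF: `Pool.Agent.Lib.H75F.s2` bounds the product over `sprimes 6 z` by `C / log z ^ 2`. It is the product
over `sprimes Y z` times the product over the `p ∈ sprimes 6 z` with `p ≤ Y`, and the latter is at least the product of
`1 - 2 / m` over all integers `7 ≤ m ≤ Y`, which is `30 / (Y (Y - 1)) ≥ 1 / Y ^ 2` (induction on `Y`). -/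
theorem k2 : ∃ C : ℝ, 0 < C ∧ ∀ z Y : ℕ, 8 ≤ z → 6 ≤ Y →
    ∏ p ∈ sprimes Y z, (1 - 2 / (p : ℝ)) ≤ C * (Y : ℝ) ^ 2 / Real.log z ^ 2 := by
  sorry

end Pool.Agent.Lib.H80K
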